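import Pool.Agent.R284.RC.Stm

set_option autoImplicit false
open MeasureTheory Set Filter Topology
open scoped ENNReal NNReal

namespace Pool.Agent.R21.RC

open Pool.Agent.R284.RC

/-- kernel bound near the diagonal -/
theorem kr_le {n : ℕ} {p s : ℝ} (hp : 0 ≤ p) (hps : p < s) {x y : E n}
    (h0 : 0 < dist x y) (h1 : dist x y ≤ 1) :
    kr p x y ≤ (1 + 1 / s) * (dist x y) ^ (-s) := by
  have hs : 0 < s := lt_of_le_of_lt hp hps
  have hpos : 0 < (dist x y) ^ (-s) := Real.rpow_pos_of_pos h0 _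
  unfold kr
  split_ifs with hp0
  · have h2 := Real.log_le_rpow_div (x := (dist x y)⁻¹) (inv_nonneg.mpr h0.le) hs
    rw [Real.log_inv, Real.inv_rpow h0.le, ← Real.rpow_neg h0.le] at h2
    calc -Real.log (dist x y) ≤ (dist x y) ^ (-s) / s := h2
      _ = 1 / s * (dist x y) ^ (-s) := by ring
      _ ≤ (1 + 1 / s) * (dist x y) ^ (-s) := by nlinarith
  · have h2 : (dist x y) ^ (-p) ≤ (dist x y) ^ (-s) :=
      Real.rpow_le_rpow_of_exponent_ge h0 h1 (by linarith)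
    have h3 : 0 ≤ 1 / s * (dist x y) ^ (-s) := by positivity
    nlinarith

/-- lower bound of the kernel on a ball -/
theorem neg_le_kr {n : ℕ} {p R : ℝ} {x y : E n} (hx : x ∈ Metric.closedBall (0 : E n) R)
    (hy : y ∈ Metric.closedBall (0 : E n) R) :
    -(max 0 (Real.log (2 * R))) ≤ kr p x y := by
  unfold kr
  split_ifs with hp0
  · rcases (dist_nonneg (x := x) (y := y)).eq_or_lt with h | h
    · rw [← h, Real.log_zero]
      have := le_max_left 0 (Real.log (2 * R))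
      linarith
    · have h2 : dist x y ≤ 2 * R := by
        have h3 := dist_triangle_right x y (0 : E n)
        have h4 := Metric.mem_closedBall.mp hx
        have h5 := Metric.mem_closedBall.mp hy
        linarith
      have h3 := Real.log_le_log h h2
      have h4 := le_max_right 0 (Real.log (2 * R))
      linarith
  · have h1 : 0 ≤ (dist x y) ^ (-p) := Real.rpow_nonneg dist_nonneg _
    have := le_max_left 0 (Real.log (2 * R))
    linarith

/-- radii -/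
noncomputable def rad (r : ℝ) (j : ℕ) : ℝ := r * (1 / 2 + (1 / 2 : ℝ) ^ (j + 1))

theorem rad_anti {r : ℝ} (hr : 0 < r) : Antitone (rad r) := by
  intro i j hij
  unfold rad
  have : (1 / 2 : ℝ) ^ (j + 1) ≤ (1 / 2 : ℝ) ^ (i + 1) :=
    pow_le_pow_of_le_one (by norm_num) (by norm_num) (by omega)
  nlinarith

theorem half_le_rad {r : ℝ} (hr : 0 < r) (j : ℕ) : r / 2 ≤ rad r j := by
  unfold rad
  have : (0 : ℝ) < (1 / 2 : ℝ) ^ (j + 1) := by positivity
  nlinarith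

theorem rad_zero (r : ℝ) : rad r 0 = r := by unfold rad; norm_num

theorem rad_one (r : ℝ) : rad r 1 = 3 * r / 4 := by unfold rad; ring

/-- smallness conditions -/
theorem exists_small {q s c γ K1 K2 K3 K4 K5 η : ℝ} (hs : 0 < s) (hsq : s < q) (hc : 0 < c)
    (hγ : 1 < γ) (hη : 0 < η) {ρ : ℝ} (hρ : 0 < ρ) :
    ∃ r, 0 < r ∧ r < ρ ∧ 1 ≤ c * r ^ (-q) ∧ K1 * r ^ (-s) ≤ η * (c * r ^ (-q)) ∧
      K2 ≤ η ^ 2 * (c * r ^ (-q)) ^ (γ - 1) ∧ K3 * (c * r ^ (-q)) ^ (-γ) ≤ η ∧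
      K4 * (c * r ^ (-q)) ^ (-γ) ≤ 1 ∧ K5 * (c * r ^ (-q)) ^ (-γ) ≤ r ^ q := by
  have hq : 0 < q := hs.trans hsq
  have hinv : Tendsto (fun r : ℝ => r⁻¹) (𝓝[>] (0 : ℝ)) atTop := tendsto_inv_nhdsGT_zero
  have hT : ∀ a : ℝ, 0 < a → Tendsto (fun r : ℝ => (r⁻¹) ^ a) (𝓝[>] (0 : ℝ)) atTop :=
    fun a ha => (tendsto_rpow_atTop ha).comp hinv
  have hS : Tendsto (fun r : ℝ => c * (r⁻¹) ^ q) (𝓝[>] (0 : ℝ)) atTop :=
    (hT q hq).const_mul_atTop hc
  have e1 : ∀ᶠ r in 𝓝[>] (0 : ℝ), (1 : ℝ) ≤ c * (r⁻¹) ^ q := hS.eventually_ge_atTop 1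
  have e2 : ∀ᶠ r in 𝓝[>] (0 : ℝ), K1 / (η * c) ≤ (r⁻¹) ^ (q - s) :=
    (hT (q - s) (by linarith)).eventually_ge_atTop _
  have e3 : ∀ᶠ r in 𝓝[>] (0 : ℝ), K2 / η ^ 2 ≤ (c * (r⁻¹) ^ q) ^ (γ - 1) :=
    ((tendsto_rpow_atTop (by linarith : 0 < γ - 1)).comp hS).eventually_ge_atTop _
  have hN : Tendsto (fun r : ℝ => (c * (r⁻¹) ^ q) ^ (-γ)) (𝓝[>] (0 : ℝ)) (𝓝 0) :=
    (tendsto_rpow_neg_atTop (by linarith : 0 < γ)).comp hS
  have e4 : ∀ᶠ r in 𝓝[>] (0 : ℝ), K3 * (c * (r⁻¹) ^ q) ^ (-γ) < η := by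
    have := hN.const_mul K3
    rw [mul_zero] at this
    exact this.eventually_lt_const hη
  have e5 : ∀ᶠ r in 𝓝[>] (0 : ℝ), K4 * (c * (r⁻¹) ^ q) ^ (-γ) < 1 := by
    have := hN.const_mul K4
    rw [mul_zero] at this
    exact this.eventually_lt_const one_pos
  have hN2 : Tendsto (fun r : ℝ => K5 / c * (c * (r⁻¹) ^ q) ^ (-(γ - 1))) (𝓝[>] (0 : ℝ))
      (𝓝 0) := by
    have := ((tendsto_rpow_neg_atTop (by linarith : 0 < γ - 1)).comp hS).const_mul (K5 / c)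
    rw [mul_zero] at this
    exact this
  have e6 : ∀ᶠ r in 𝓝[>] (0 : ℝ), K5 / c * (c * (r⁻¹) ^ q) ^ (-(γ - 1)) < 1 :=
    hN2.eventually_lt_const one_pos
  have e7 : ∀ᶠ r in 𝓝[>] (0 : ℝ), 0 < r := eventually_mem_nhdsWithin
  have e8 : ∀ᶠ r in 𝓝[>] (0 : ℝ), r < ρ :=
    eventually_nhdsWithin_of_eventually_nhds (eventually_lt_nhds hρ)
  obtain ⟨r, h1, h2, h3, h4, h5, h6, h7, h8⟩ :=
    (e1.and (e2.and (e3.and (e4.and (e5.and (e6.and (e7.and e8))))))).exists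
  have hinvq : ∀ a : ℝ, (r⁻¹) ^ a = r ^ (-a) := fun a => by
    rw [Real.inv_rpow h7.le, Real.rpow_neg h7.le]
  rw [hinvq q] at h1 h3 h4 h5 h6
  rw [hinvq (q - s)] at h2
  have hSp : 0 < c * r ^ (-q) := by positivity
  refine ⟨r, h7, h8, h1, ?_, ?_, h4.le, h5.le, ?_⟩
  · rw [div_le_iff₀ (by positivity)] at h2
    have h9 : r ^ (-q) = r ^ (-(q - s)) * r ^ (-s) := by
      rw [← Real.rpow_add h7]; congr 1; ring
    rw [h9]
    have h10 : 0 < r ^ (-s) := Real.rpow_pos_of_pos h7 _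
    calc K1 * r ^ (-s) ≤ (r ^ (-(q - s)) * (η * c)) * r ^ (-s) :=
          mul_le_mul_of_nonneg_right h2 h10.le
      _ = η * (c * (r ^ (-(q - s)) * r ^ (-s))) := by ring
  · rw [div_le_iff₀ (by positivity)] at h3
    linarith
  · have h9 : (c * r ^ (-q)) ^ (-γ) = (c * r ^ (-q)) ^ (-(γ - 1)) * (c * r ^ (-q))⁻¹ := by
      rw [← Real.rpow_neg_one (c * r ^ (-q)), ← Real.rpow_add hSp]; congr 1; ring
    rw [h9]
    have h10 : (c * r ^ (-q))⁻¹ = c⁻¹ * r ^ q := by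
      rw [mul_inv, ← Real.rpow_neg h7.le, neg_neg]
    rw [h10]
    have h11 : 0 < r ^ q := Real.rpow_pos_of_pos h7 _
    calc K5 * ((c * r ^ (-q)) ^ (-(γ - 1)) * (c⁻¹ * r ^ q))
        = (K5 / c * (c * r ^ (-q)) ^ (-(γ - 1))) * r ^ q := by
          rw [div_eq_mul_inv]; ring
      _ ≤ 1 * r ^ q := mul_le_mul_of_nonneg_right h6.le h11.le
      _ = r ^ q := one_mul _

/-- RC-LOC5 -/
theorem loc5_proof (h1 : S_iter) : S_loc5 := by
  intro n p q μ ν V C1 C2 γ hctx x0 η0 c r2 hη0 hc hr2 hL2 hL4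
  obtain ⟨hp, hpq, hqn, hμ, hBP, hBS, hV, hLow, hOpt, -⟩ := hctx
  obtain ⟨R, hR⟩ := hBS
  obtain ⟨hC1, hC2, hγ, hOpt'⟩ := hOpt
  obtain ⟨r4, hr4, h4⟩ := hL4 1 one_pos
  set s := (p + q) / 2 with hs_def
  have hps : p < s := by rw [hs_def]; linarith
  have hsq : s < q := by rw [hs_def]; linarith
  have hs : 0 < s := lt_of_le_of_lt hp hps
  set L := max 0 (Real.log (2 * R)) with hL_def
  have hL : 0 ≤ L := le_max_left _ _
  set Cc := (1 + 1 / s) with hCc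
  have hCc0 : 0 < Cc := by rw [hCc]; positivity
  obtain ⟨r, hr, hrρ, hS1, hc1, hc2, hc3, hc4, hc5⟩ := exists_small
    (K1 := 2 * (Cc * 8 ^ s) * (2 * (V + L) + Real.sqrt (2 * C1 * C2)))
    (K2 := 8 * C1 * C2 * (2 : ℝ) ^ (s + 1)) (K3 := 8 * C1 * C2) (K4 := 2 * C2)
    (K5 := 2 * C1 * C2) hs hsq hc hγ (half_pos hη0)
    (lt_min (lt_min hr2 hr4) (by norm_num : (0 : ℝ) < 1 / 2))
  have hr2' : r < r2 := lt_of_lt_of_le hrρ ((min_le_left _ _).trans (min_le_left _ _))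
  have hr4' : r < r4 := lt_of_lt_of_le hrρ ((min_le_left _ _).trans (min_le_right _ _))
  have hr12 : r < 1 / 2 := lt_of_lt_of_le hrρ (min_le_right _ _)
  have hanti : Antitone (fun j => Metric.ball x0 (rad r j)) := fun i j hij =>
    Metric.ball_subset_ball (rad_anti hr hij)
  have hsub : ∀ j, Metric.ball x0 (r / 2) ⊆ Metric.ball x0 (rad r j) := fun j =>
    Metric.ball_subset_ball (half_le_rad hr j)
  have hconc := h1 n p q hp hpq μ inferInstance hBP V hV hLow C1 C2 γ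
    ⟨hC1, hC2, hγ, hOpt'⟩ (η0 / 2) (Cc * 8 ^ s * r ^ (-s)) s (c * r ^ (-q)) L (r ^ q)
    (half_pos hη0) (by positivity) hs.le hS1 hL (fun j => Metric.ball x0 (rad r j))
    (Metric.closedBall 0 R) (fun j => measurableSet_ball) hanti
    measurableSet_closedBall hR ?_ ?_ ?_ ?_ ?_ hc2 hc3 hc4 hc5
  · exact ⟨r / 2, half_pos hr, measure_mono_null (subset_iInter hsub) hconc⟩
  · intro i x hx y hy1 hy2
    simp only [Metric.mem_ball, not_lt] at hx hy1 hy2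
    have htri := dist_triangle y x x0
    rw [dist_comm y x] at htri
    have hlow : r * (1 / 2 : ℝ) ^ (i + 3) ≤ dist x y := by
      have e1 : rad r (i + 1) - rad r (i + 2) = r * (1 / 2 : ℝ) ^ (i + 3) := by
        unfold rad; ring
      linarith
    have hpos : 0 < r * (1 / 2 : ℝ) ^ (i + 3) := by positivity
    have hd0 : 0 < dist x y := lt_of_lt_of_le hpos hlow
    have hd1 : dist x y ≤ 1 := by
      have h5 := dist_triangle_right x y x0
      have h6 : rad r (i + 2) ≤ r := by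
        have := rad_anti hr (Nat.zero_le (i + 2)); rwa [rad_zero] at this
      have h7 : rad r i ≤ r := by
        have := rad_anti hr (Nat.zero_le i); rwa [rad_zero] at this
      linarith
    refine (kr_le hp hps hd0 hd1).trans ?_
    have h5 : (dist x y) ^ (-s) ≤ (r * (1 / 2 : ℝ) ^ (i + 3)) ^ (-s) :=
      Real.rpow_le_rpow_of_nonpos hpos hlow (by linarith)
    have h6 : (r * (1 / 2 : ℝ) ^ (i + 3)) ^ (-s) = r ^ (-s) * (8 ^ s * (2 : ℝ) ^ (s * (i : ℝ))) := by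
      rw [Real.mul_rpow hr.le (by positivity)]
      congr 1
      rw [Real.rpow_neg (by positivity), ← Real.inv_rpow (by positivity), ← inv_pow]
      have : ((1 / 2 : ℝ)⁻¹) = 2 := by norm_num
      rw [this, mul_comm s (i : ℝ), Real.rpow_mul (by norm_num), Real.rpow_natCast,
        ← Real.mul_rpow (by norm_num) (by positivity)]
      congr 1
      rw [pow_add]; ring
    calc Cc * (dist x y) ^ (-s) ≤ Cc * (r * (1 / 2 : ℝ) ^ (i + 3)) ^ (-s) :=
          mul_le_mul_of_nonneg_left h5 hCc0.le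
      _ = Cc * 8 ^ s * r ^ (-s) * (2 : ℝ) ^ (s * (i : ℝ)) := by rw [h6]; ring
  · intro j x hx y hy _ _
    exact neg_le_kr hx hy
  · intro τ hτ hτ0
    refine hL2 r ⟨hr, hr2'⟩ τ hτ (measure_mono_null ?_ hτ0)
    simp only [rad_zero]
    exact compl_subset_compl.mpr Metric.ball_subset_closedBall
  · intro j σ hσ hσ0 hE x hx
    have hx' : x ∈ Metric.ball x0 (3 * r / 4) := by
      simpa only [rad_one] using hx
    have h5 := h4 r ⟨hr, hr4'⟩ σ hσ (measure_mono_null (hsub j) hσ0)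
      (by rw [one_mul]; exact hE) x hx'
    simp only [rad_zero]
    linarith
  · calc 2 * (Cc * 8 ^ s * r ^ (-s)) * (2 * (V + L) + Real.sqrt (2 * C1 * C2))
        = 2 * (Cc * 8 ^ s) * (2 * (V + L) + Real.sqrt (2 * C1 * C2)) * r ^ (-s) := by ring
      _ ≤ η0 / 2 * (c * r ^ (-q)) := hc1

end Pool.Agent.R21.RC
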